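import Pool.Agent.Helper96.NSF.MChain
import Pool.Agent.Helper75.ZZ.CSA

/-! Packet NSF MBND: the estimates at a marked corner, choice of the constants. -/

open scoped ENNReal
open Finset Topology
open Filter (Tendsto atTop eventually_atTop)

namespace Pool.Agent.Helper54.NSF

open Pool.Agent.Helper92.Eps
open Pool.Agent.Helper99.ZZ
open Pool.Agent.Helper96.NSF
open Helper36.Eps (iv_pos iv_neg iv_mono iv_mul iv_le GG_congr GG_const)

variable {B : Type} {D : ℕ}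

/-! ### Numbers -/

theorem pick_pow {K τ ε : ℝ≥0∞} (hK : K ≠ ⊤) (hτ : τ < 1) (hε : ε ≠ 0) :
    ∃ n0 : ℕ, ∀ n ≥ n0, K * τ ^ n ≤ ε := by
  have h1 : Tendsto (fun n : ℕ => K * τ ^ n) atTop (𝓝 0) := by
    have := ENNReal.Tendsto.const_mul (a := K)
      (ENNReal.tendsto_pow_atTop_nhds_zero_of_lt_one hτ) (Or.inr hK)
    rwa [mul_zero] at this
  exact eventually_atTop.1 (h1.eventually_le_const (pos_iff_ne_zero.2 hε))

theorem pick_eps {k ε : ℝ≥0∞} (hk : k ≠ ⊤) (hε : ε ≠ 0) :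
    ∃ β0 : ℝ≥0∞, β0 ≠ 0 ∧ ∀ β ≤ β0, k * β ^ (1 / 2 : ℝ) ≤ ε := by
  refine ⟨(ε / (k + 1)) ^ 2, ?_, fun β hβ => ?_⟩
  · refine pow_ne_zero 2 (ENNReal.div_ne_zero.2 ⟨hε, ?_⟩)
    finiteness
  · have h1 : β ^ (1 / 2 : ℝ) ≤ ε / (k + 1) := by
      rw [← Helper75.ZZ.sqrt_sq' (ε / (k + 1))]
      exact ENNReal.rpow_le_rpow hβ (by norm_num)
    calc k * β ^ (1 / 2 : ℝ) ≤ (k + 1) * (ε / (k + 1)) := mul_le_mul' le_self_add h1
      _ ≤ ε := ENNReal.mul_div_le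

theorem pick_small {K ε : ℝ≥0∞} (hK : K ≠ ⊤) (hε : ε ≠ 0) :
    ∃ q0 : ℝ≥0∞, q0 ≠ 0 ∧ q0 ≤ 1 ∧ ∀ q ≤ q0, q * K ≤ ε := by
  refine ⟨min 1 (ε / (K + 1)), ?_, min_le_left _ _, fun q hq => ?_⟩
  · have h1 : ε / (K + 1) ≠ 0 := by
      refine ENNReal.div_ne_zero.2 ⟨hε, ?_⟩
      finiteness
    rcases min_choice 1 (ε / (K + 1)) with h | h <;> rw [h]
    · exact one_ne_zero
    · exact h1
  · calc q * K ≤ (ε / (K + 1)) * (K + 1) :=
          mul_le_mul' (hq.trans (min_le_right _ _)) le_self_add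
      _ = (K + 1) * (ε / (K + 1)) := mul_comm _ _
      _ ≤ ε := ENNReal.mul_div_le

/-! ### First passage prefixes -/

theorem H_cons (A : Alph B D) (b : B) (l : List B) : A.H (b :: l) = A.h b + A.H l := by
  simp [Alph.H]

theorem fpp_pfx (A : Alph B D) : ∀ (l : List B) (T : ℕ), A.fpp T l <+: l := by
  intro l
  induction l with
  | nil => intro T; simp [Alph.fpp]
  | cons b l ih =>
    intro T
    rw [Alph.fpp]
    split_ifs with h
    · exact ⟨l, rfl⟩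
    · exact List.prefix_cons_inj b |>.2 (ih _)

theorem fpp_app (A : Alph B D) (m : List B) : ∀ (l : List B) (T : ℕ), T < A.H l →
    A.fpp T (l ++ m) = A.fpp T l := by
  intro l
  induction l with
  | nil =>
    intro T hT
    exact absurd hT (by simp [Alph.H])
  | cons b l ih =>
    intro T hT
    rw [List.cons_append, Alph.fpp, Alph.fpp]
    by_cases h : T < A.h b
    · rw [if_pos h, if_pos h]
    · rw [if_neg h, if_neg h, ih]
      rw [H_cons] at hT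
      omega

theorem fpp_self (A : Alph B D) : ∀ (l : List B) (T : ℕ), A.Str T l → A.fpp T l = l := by
  intro l
  induction l with
  | nil => intro T _; simp [Alph.fpp]
  | cons b l ih =>
    rintro T ⟨h1, h2⟩
    rw [Alph.fpp]
    rw [H_cons] at h2
    rcases eq_or_ne l [] with rfl | hl
    · have : T < A.h b := by simpa [Alph.H] using h2
      rw [if_pos this]
    · rw [List.dropLast_cons_of_ne_nil hl, H_cons] at h1
      rw [if_neg (by omega), ih]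
      exact ⟨by omega, by omega⟩

theorem mass (A : Alph B D) (hc : Calc A) {c r : ℕ} (hcr : c ≤ r) (φ : List B → ℝ≥0∞) :
    A.GG r (fun p => φ (A.fpp c p)) = A.GG c φ := by
  rw [hc.GG_split c r _ hcr]
  refine GG_congr hc fun p hp => ?_
  split_ifs with h
  · rw [fpp_self A p c hp]
  · have h1 : (fun q => φ (A.fpp c (p ++ q))) = fun _ => φ p := by
      funext q
      rw [fpp_app A q p c hp.2, fpp_self A p c hp]
    rw [h1, GG_const hc]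

/-! ### `GS` -/

theorem GS_pos (A : Alph B D) {r : ℕ} (hr : 1 ≤ r) (φ : List B → ℝ≥0∞) :
    GS A r φ = A.GG r φ := by
  unfold GS
  rw [if_neg (by omega)]

theorem GS_add (A : Alph B D) (hc : Calc A) (r : ℕ) (φ ψ : List B → ℝ≥0∞) :
    GS A r (fun p => φ p + ψ p) = GS A r φ + GS A r ψ := by
  unfold GS
  split_ifs
  · rfl
  · exact hc.GG_addf r φ ψ

theorem GS_add2 (A : Alph B D) (hc : Calc A) (r : ℕ) (φ ψ : List B → List B → ℝ≥0∞) :
    GS A r (fun p1 => GS A r (fun p2 => φ p1 p2 + ψ p1 p2)) =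
      GS A r (fun p1 => GS A r (fun p2 => φ p1 p2)) +
      GS A r (fun p1 => GS A r (fun p2 => ψ p1 p2)) := by
  rw [← GS_add A hc]
  congr 1
  funext p1
  rw [GS_add A hc]

theorem stp_str {A : Alph B D} {r : ℕ} (hr : 1 ≤ r) {p : List B} (hp : Stp A r p) :
    A.Str r p := by
  rcases hp with ⟨h, _⟩ | ⟨_, h⟩
  · omega
  · exact h

variable {A : Alph B D} {E : ℕ → List B → List B → Prop} {J : ℕ} {Θ : ℝ≥0∞}

theorem ker_kt (hEv : Evt E) {c r : ℕ} (hcr : c ≤ r) (p1 p2 : List B) :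
    ker A E J Θ true r p1 p2 ≤ kt A E J Θ c r p1 p2 := by
  unfold ker kt kw
  rw [if_pos rfl]
  refine iv_mono (fun h => ?_) fun _ => le_rfl
  exact hEv.pre1 (fpp_pfx A p1 c) (hEv.pre2 (fpp_pfx A p2 c) (hEv.mono hcr h))

/-- the union of the two jump events -/
def j1 (A : Alph B D) (J a a1 : ℕ) (p : List B) : Prop :=
  Jmp A (J - a) (J - a1) p ∨ Jmp A (J - a1 + 1) (J - 3) p

/-- the mass of the event at the height `c0` -/
theorem mass0 (hc : Calc A) (hra : ∀ n, RenAnti A n) {C b : ℝ≥0∞} (hK1 : K1H A E J C b)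
    {a r : ℕ} (ha : a ≤ J) (hr : 2 ^ (J - a) ≤ r) :
    GS A r (fun p1 => GS A r (fun p2 =>
      iv (E (2 ^ (J - a)) (A.fpp (2 ^ (J - a)) p1) (A.fpp (2 ^ (J - a)) p2)) 1)) *
      A.S (2 ^ J) ≤ C * (2 * b) ^ a := by
  have h0 : 1 ≤ 2 ^ (J - a) := Nat.one_le_two_pow
  have hr1 : 1 ≤ r := h0.trans hr
  rw [GS_pos A hr1]
  have h1 : (fun p1 => GS A r (fun p2 =>
      iv (E (2 ^ (J - a)) (A.fpp (2 ^ (J - a)) p1) (A.fpp (2 ^ (J - a)) p2)) 1)) =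
      fun p1 => (fun x => A.GG (2 ^ (J - a)) (fun p2 => iv (E (2 ^ (J - a)) x p2) 1))
        (A.fpp (2 ^ (J - a)) p1) := by
    funext p1
    rw [GS_pos A hr1]
    exact mass A hc hr (fun y => iv (E (2 ^ (J - a)) (A.fpp (2 ^ (J - a)) p1) y) 1)
  rw [h1, mass A hc hr (fun x => A.GG (2 ^ (J - a)) (fun p2 => iv (E (2 ^ (J - a)) x p2) 1))]
  have h2 := hK1 (J - a) (Nat.sub_le _ _)
  rw [Nat.sub_sub_self ha] at h2
  have h3 : A.S (2 ^ J) ≤ 2 ^ a * A.S (2 ^ (J - a)) := by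
    have := Helper75.ZZ.S_dy hra (J - a) a
    rwa [Nat.sub_add_cancel ha] at this
  calc _ ≤ A.GG (2 ^ (J - a)) (fun p1 => A.GG (2 ^ (J - a))
          (fun p2 => iv (E (2 ^ (J - a)) p1 p2) 1)) * (2 ^ a * A.S (2 ^ (J - a))) :=
        mul_le_mul' le_rfl h3
    _ = 2 ^ a * (A.GG (2 ^ (J - a)) (fun p1 => A.GG (2 ^ (J - a))
          (fun p2 => iv (E (2 ^ (J - a)) p1 p2) 1)) * A.S (2 ^ (J - a))) := by ring
    _ ≤ 2 ^ a * (C * b ^ a) := mul_le_mul' le_rfl h2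
    _ = _ := by rw [mul_pow]; ring

theorem iv_or (P Q : Prop) (x : ℝ≥0∞) : iv (P ∨ Q) x ≤ iv P x + iv Q x := by
  by_cases hP : P
  · rw [iv_pos (Or.inl hP), iv_pos hP]
    exact le_self_add
  · by_cases hQ : Q
    · rw [iv_pos (Or.inr hQ), iv_pos hQ]
      exact le_add_self
    · rw [iv_neg (fun h => h.elim hP hQ)]
      exact zero_le

/-- **MBND** -/
theorem MBND (hCSAG : CSAG_stmt) (hBD0 : BD0_stmt) (hFLG : FLG_stmt) (hSUPC : SUPC_stmt)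
    (hGSB : GSB_stmt) : MBND_stmt := by
  intro C b Q θ Θ hC hQ hb1 hbt hΘ1 hΘt hθ hτ0 δ0 hδ0
  obtain ⟨κ1, κ2, τ, hκ1, hκ2, hτ, HC⟩ := hCSAG C b Q θ Θ hC hQ hb1 hbt hΘ1 hΘt hτ0
  obtain ⟨C', hC', HB⟩ := hBD0 C Q θ hC hθ
  -- the constants
  obtain ⟨ε, hε, hεδ⟩ : ∃ ε : ℝ≥0∞, ε ≠ 0 ∧ 16 * ε ≤ δ0 :=
    ⟨δ0 / 16, ENNReal.div_ne_zero.2 ⟨hδ0, by norm_num⟩, ENNReal.mul_div_le⟩
  obtain ⟨a', ha'⟩ := pick_pow (K := κ2 0 + κ2 1) (τ := τ)
    (ENNReal.add_ne_top.2 ⟨hκ2 0, hκ2 1⟩) hτ hε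
  obtain ⟨β0, hβ0, Hβ0⟩ := pick_eps (k := κ1 0 a' + κ1 1 a')
    (ENNReal.add_ne_top.2 ⟨hκ1 0 a', hκ1 1 a'⟩) hε
  have hβ0' : β0 / 2 ≠ 0 := ENNReal.div_ne_zero.2 ⟨hβ0, by norm_num⟩
  obtain ⟨n1, hn1⟩ := pick_pow (K := C' * Q ^ 4) (τ := θ) (by finiteness) hθ hβ0'
  obtain ⟨a1, ha1, ha1a, ha1n⟩ : ∃ a1 : ℕ, 5 ≤ a1 ∧ a' + 3 ≤ a1 ∧ n1 ≤ a1 - 1 :=
    ⟨5 + (a' + 3) + n1, by omega, by omega, by omega⟩
  obtain ⟨n2, hn2⟩ := pick_pow (K := C' * Q ^ (a1 + 1)) (τ := θ) (by finiteness) hθ hβ0'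
  obtain ⟨a, ha, han⟩ : ∃ a : ℕ, a1 + 2 ≤ a ∧ n2 ≤ a := ⟨a1 + 2 + n2, by omega, by omega⟩
  obtain ⟨a'', ha''⟩ := pick_pow (K := κ2 a) (τ := τ) (hκ2 a) hτ hε
  obtain ⟨β2, hβ2, Hβ2⟩ := pick_eps (k := κ1 a a'') (hκ1 a a'') hε
  have hCb : C * (2 * b) ^ a ≠ ⊤ := by finiteness
  obtain ⟨η, hη0, hη1, Hη⟩ := pick_small (K := C * (2 * b) ^ a) hCb hβ2
  have hk3 : κ1 a 0 * (C * (2 * b) ^ a) ^ (1 / 2 : ℝ) + κ2 a ≠ ⊤ :=
    ENNReal.add_ne_top.2 ⟨ENNReal.mul_ne_top (hκ1 a 0)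
      (ENNReal.rpow_ne_top_of_nonneg (by norm_num) hCb), hκ2 a⟩
  obtain ⟨q2, hq20, _, Hq2⟩ := pick_small hk3 hε
  obtain ⟨q, hq0, hqη, hqq⟩ : ∃ q : ℝ≥0∞, q ≠ 0 ∧ q ≤ η ∧ q ≤ q2 := by
    refine ⟨min η q2, ?_, min_le_left _ _, min_le_right _ _⟩
    rcases min_choice η q2 with h | h <;> rw [h]
    · exact hη0
    · exact hq20
  refine ⟨a1, a, q, η, ha1, ha, hq0, hη0, hqη.trans hη1, hη1, ?_⟩
  intro B ι _ _ D A E hc hren hra hEv J haJ hK1 hK3 F Gd Bd hM r hr hr2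
  obtain ⟨-, -, -, gsle, gsmul, -, gswap⟩ := hGSB A hc
  have haJ' : a ≤ J := by omega
  have hr1 : 1 ≤ r := Nat.one_le_two_pow.trans hr2
  obtain ⟨ar, har, hrr⟩ : ∃ ar ≤ 1, r = 2 ^ (J - ar) := by
    rcases hr with rfl | ⟨ρ, hρ, rfl⟩
    · omega
    · have : J - 1 ≤ ρ := (Nat.pow_le_pow_iff_right (by norm_num)).1 hr2
      exact ⟨J - ρ, by omega, by rw [Nat.sub_sub_self hρ]⟩
  have hc0r : 2 ^ (J - a) ≤ r :=
    (Nat.pow_le_pow_right (by norm_num) (by omega)).trans hr2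
  set S := A.S (2 ^ J) with hS
  have hmass := mass0 (A := A) (E := E) (J := J) hc hra hK1 haJ' hc0r
  -- the jump events, the estimate for the whole depth
  have HJ : ∀ P : List B → List B → Prop,
      GS A r (fun p1 => GS A r (fun p2 => iv (E (2 ^ (J - ar)) (A.fpp (2 ^ (J - ar)) p1)
        (A.fpp (2 ^ (J - ar)) p2) ∧ P p1 p2 ∧ Scl A J r a' p1 ∧ Scl A J r a' p2) 1)) * S ≤ β0 →
      ∀ (x1 x2 : ℝ≥0∞) (om1 om2 : List B → ℝ≥0∞), EndW A J r x1 om1 → EndW A J r x2 om2 →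
      GS A r (fun p1 => GS A r (fun p2 => om1 p1 * om2 p2 *
        iv (P p1 p2) (kt A E J Θ r r p1 p2))) * S ≤ 2 * ε * x1 * x2 := by
    intro P hP x1 x2 om1 om2 h1 h2
    have := HC A E hc hren hra hEv J hK1 hK3 ar a' r (by omega) hr (le_of_eq hrr.symm) P β0 hP
      x1 x2 om1 om2 h1 h2
    rw [← hrr] at this
    refine this.trans ?_
    refine mul_le_mul' (mul_le_mul' ?_ le_rfl) le_rfl
    rw [two_mul]
    refine add_le_add ((mul_le_mul' ?_ le_rfl).trans (Hβ0 β0 le_rfl))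
      ((mul_le_mul' ?_ le_rfl).trans (ha' a' le_rfl))
    · interval_cases ar
      · exact le_self_add
      · exact le_add_self
    · interval_cases ar
      · exact le_self_add
      · exact le_add_self
  -- the estimate for the small height
  have HS : ∀ (P : List B → List B → Prop) (x : ℝ≥0∞), x ≤ η →
      GS A r (fun p1 => GS A r (fun p2 => iv (E (2 ^ (J - a)) (A.fpp (2 ^ (J - a)) p1)
        (A.fpp (2 ^ (J - a)) p2) ∧ P p1 p2) 1)) * S ≤ x * (C * (2 * b) ^ a) →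
      ∀ (x1 x2 : ℝ≥0∞) (om1 om2 : List B → ℝ≥0∞), EndW A J r x1 om1 → EndW A J r x2 om2 →
      GS A r (fun p1 => GS A r (fun p2 => om1 p1 * om2 p2 *
        iv (P p1 p2) (kt A E J Θ (2 ^ (J - a)) r p1 p2))) * S ≤ 2 * ε * x1 * x2 := by
    intro P x hx hP x1 x2 om1 om2 h1 h2
    refine (HC A E hc hren hra hEv J hK1 hK3 a a'' r haJ' hr hc0r P (x * (C * (2 * b) ^ a)) ?_
      x1 x2 om1 om2 h1 h2).trans ?_
    · refine le_trans ?_ hP
      refine mul_le_mul' ?_ le_rfl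
      refine gsle _ _ _ fun p1 _ _ => gsle _ _ _ fun p2 _ _ => ?_
      exact iv_mono (fun h => ⟨h.1, h.2.1⟩) fun _ => le_rfl
    · refine mul_le_mul' (mul_le_mul' ?_ le_rfl) le_rfl
      rw [show 2 * ε = ε + ε from two_mul ε]
      exact add_le_add (Hβ2 _ (Hη x hx)) (ha'' a'' le_rfl)
  -- the jump events
  have e1 : J - (J - a1) + 1 = a1 + 1 := by omega
  have e2 : J - (J - a) = a := by omega
  have e3 : J - (J - 3) + 1 = 4 := by omega
  have e4 : J - (J - a1 + 1) = a1 - 1 := by omega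
  obtain ⟨u2, u1⟩ := HB A E hc hren hEv J hK3 a' r (J - a) (J - a1) hr (by omega) (by omega)
    (by omega) ((Nat.pow_le_pow_right (by norm_num) (by omega)).trans hr2)
  obtain ⟨v2, v1⟩ := HB A E hc hren hEv J hK3 a' r (J - a1 + 1) (J - 3) hr (by omega) (by omega)
    (by omega) ((Nat.pow_le_pow_right (by norm_num) (by omega)).trans hr2)
  rw [e1, e2] at u1 u2
  rw [e3, e4] at v1 v2
  have hβs : C' * Q ^ (a1 + 1) * θ ^ a + C' * Q ^ 4 * θ ^ (a1 - 1) ≤ β0 := by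
    calc _ ≤ β0 / 2 + β0 / 2 := add_le_add (hn2 a han) (hn1 (a1 - 1) ha1n)
      _ = β0 := ENNReal.add_halves β0
  have hfr : ∀ p, Stp A r p → A.fpp (2 ^ (J - ar)) p = p := by
    intro p hp
    rw [← hrr]
    exact fpp_self A p r (stp_str hr1 hp)
  have MJ1 : GS A r (fun p1 => GS A r (fun p2 => iv (E (2 ^ (J - ar)) (A.fpp (2 ^ (J - ar)) p1)
      (A.fpp (2 ^ (J - ar)) p2) ∧ j1 A J a a1 p1 ∧ Scl A J r a' p1 ∧ Scl A J r a' p2) 1)) *
      S ≤ β0 := by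
    refine le_trans ?_ hβs
    refine le_trans ?_ (add_le_add u1 v1)
    rw [← add_mul, ← GS_add2 A hc]
    refine mul_le_mul' (gsle _ _ _ fun p1 h1 _ => gsle _ _ _ fun p2 h2 _ => ?_) le_rfl
    refine le_trans (iv_mono (fun h => ?_) fun _ => le_rfl) (iv_or _ _ _)
    obtain ⟨h3, h4, h5, h6⟩ := h
    rw [hfr p1 h1, hfr p2 h2, ← hrr] at h3
    rcases h4 with h4 | h4
    · exact Or.inl ⟨h3, h4, h5⟩
    · exact Or.inr ⟨h3, h4, h5⟩
  have MJ2 : GS A r (fun p1 => GS A r (fun p2 => iv (E (2 ^ (J - ar)) (A.fpp (2 ^ (J - ar)) p1)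
      (A.fpp (2 ^ (J - ar)) p2) ∧ j1 A J a a1 p2 ∧ Scl A J r a' p1 ∧ Scl A J r a' p2) 1)) *
      S ≤ β0 := by
    refine le_trans ?_ hβs
    refine le_trans ?_ (add_le_add u2 v2)
    rw [← add_mul, ← GS_add2 A hc]
    refine mul_le_mul' (gsle _ _ _ fun p1 h1 _ => gsle _ _ _ fun p2 h2 _ => ?_) le_rfl
    refine le_trans (iv_mono (fun h => ?_) fun _ => le_rfl) (iv_or _ _ _)
    obtain ⟨h3, h4, h5, h6⟩ := h
    rw [hfr p1 h1, hfr p2 h2, ← hrr] at h3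
    rcases h4 with h4 | h4
    · exact Or.inl ⟨h3, h4, h6⟩
    · exact Or.inr ⟨h3, h4, h6⟩
  -- bad lists without jumps
  have hb := hM.hb r hr hr2
  have MB0 : ∀ y : List B, GS A r (fun p => iv (E (2 ^ (J - a)) (A.fpp (2 ^ (J - a)) p) y ∧
      Bd p ∧ ¬ j1 A J a a1 p) 1) ≤
      η * GS A r (fun p => iv (E (2 ^ (J - a)) (A.fpp (2 ^ (J - a)) p) y) 1) := by
    intro y
    refine le_trans (gsle _ _ _ fun p _ _ => ?_) (hb (fun x => iv (E (2 ^ (J - a)) x y) 1))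
    by_cases h : E (2 ^ (J - a)) (A.fpp (2 ^ (J - a)) p) y ∧ Bd p ∧ ¬ j1 A J a a1 p
    · obtain ⟨h1, h2, h3⟩ := h
      rw [iv_pos ⟨h1, h2, h3⟩, iv_pos ⟨h2, fun h => h3 (Or.inl h), fun h => h3 (Or.inr h)⟩,
        iv_pos h1]
    · rw [iv_neg h]
      exact zero_le
  have MB0' : ∀ y : List B, GS A r (fun p => iv (E (2 ^ (J - a)) y (A.fpp (2 ^ (J - a)) p) ∧
      Bd p ∧ ¬ j1 A J a a1 p) 1) ≤
      η * GS A r (fun p => iv (E (2 ^ (J - a)) y (A.fpp (2 ^ (J - a)) p)) 1) := by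
    intro y
    refine le_trans (gsle _ _ _ fun p _ _ => ?_) (hb (fun x => iv (E (2 ^ (J - a)) y x) 1))
    by_cases h : E (2 ^ (J - a)) y (A.fpp (2 ^ (J - a)) p) ∧ Bd p ∧ ¬ j1 A J a a1 p
    · obtain ⟨h1, h2, h3⟩ := h
      rw [iv_pos ⟨h1, h2, h3⟩, iv_pos ⟨h2, fun h => h3 (Or.inl h), fun h => h3 (Or.inr h)⟩,
        iv_pos h1]
    · rw [iv_neg h]
      exact zero_le
  have MB1 : GS A r (fun p1 => GS A r (fun p2 => iv (E (2 ^ (J - a)) (A.fpp (2 ^ (J - a)) p1)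
      (A.fpp (2 ^ (J - a)) p2) ∧ Bd p1 ∧ ¬ j1 A J a a1 p1) 1)) * S ≤
      η * (C * (2 * b) ^ a) := by
    rw [gswap]
    calc _ ≤ GS A r (fun p2 => η * GS A r (fun p1 => iv (E (2 ^ (J - a))
            (A.fpp (2 ^ (J - a)) p1) (A.fpp (2 ^ (J - a)) p2)) 1)) * S :=
          mul_le_mul' (gsle _ _ _ fun p2 _ _ => MB0 _) le_rfl
      _ = η * (GS A r (fun p1 => GS A r (fun p2 => iv (E (2 ^ (J - a))
            (A.fpp (2 ^ (J - a)) p1) (A.fpp (2 ^ (J - a)) p2)) 1)) * S) := by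
          rw [gsmul, gswap, mul_assoc]
      _ ≤ _ := mul_le_mul' le_rfl hmass
  have MB2 : GS A r (fun p1 => GS A r (fun p2 => iv (E (2 ^ (J - a)) (A.fpp (2 ^ (J - a)) p1)
      (A.fpp (2 ^ (J - a)) p2) ∧ Bd p2 ∧ ¬ j1 A J a a1 p2) 1)) * S ≤
      η * (C * (2 * b) ^ a) := by
    calc _ ≤ GS A r (fun p1 => η * GS A r (fun p2 => iv (E (2 ^ (J - a))
            (A.fpp (2 ^ (J - a)) p1) (A.fpp (2 ^ (J - a)) p2)) 1)) * S :=
          mul_le_mul' (gsle _ _ _ fun p1 _ _ => MB0' _) le_rfl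
      _ = η * (GS A r (fun p1 => GS A r (fun p2 => iv (E (2 ^ (J - a))
            (A.fpp (2 ^ (J - a)) p1) (A.fpp (2 ^ (J - a)) p2)) 1)) * S) := by
          rw [gsmul, mul_assoc]
      _ ≤ _ := mul_le_mul' le_rfl hmass
  -- thin predicates
  have MT : ∀ μ : List B → TM F Gd q, GS A r (fun p1 => GS A r (fun p2 =>
      iv (E (2 ^ (J - a)) (A.fpp (2 ^ (J - a)) p1) (A.fpp (2 ^ (J - a)) p2) ∧
        Gd p2 ∧ (μ p1).1 p2) 1)) * S ≤ q * (C * (2 * b) ^ a) := by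
    intro μ
    have h1 : ∀ p1, GS A r (fun p2 =>
        iv (E (2 ^ (J - a)) (A.fpp (2 ^ (J - a)) p1) (A.fpp (2 ^ (J - a)) p2) ∧
          Gd p2 ∧ (μ p1).1 p2) 1) ≤
        q * GS A r (fun p2 => iv (E (2 ^ (J - a)) (A.fpp (2 ^ (J - a)) p1)
          (A.fpp (2 ^ (J - a)) p2)) 1) := by
      intro p1
      have h2 := hFLG A F Gd (2 ^ (J - a)) (2 ^ (J - 2)) hM.fl q (μ p1).1 (μ p1).2 r
        (fun p2 => iv (E (2 ^ (J - a)) (A.fpp (2 ^ (J - a)) p1) (A.fpp (2 ^ (J - a)) p2)) 1)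
        (fun e p hp => by rw [hM.fl.pre e p hp])
      refine le_trans (le_trans (gsle _ _ _ fun p2 _ _ => ?_) h2)
        (mul_le_mul' le_rfl (gsle _ _ _ fun p2 _ _ => iv_le _ _))
      by_cases h : E (2 ^ (J - a)) (A.fpp (2 ^ (J - a)) p1) (A.fpp (2 ^ (J - a)) p2) ∧
          Gd p2 ∧ (μ p1).1 p2
      · rw [iv_pos h, iv_pos h.2, iv_pos h.1]
      · rw [iv_neg h]
        exact zero_le
    calc _ ≤ GS A r (fun p1 => q * GS A r (fun p2 => iv (E (2 ^ (J - a))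
            (A.fpp (2 ^ (J - a)) p1) (A.fpp (2 ^ (J - a)) p2)) 1)) * S :=
          mul_le_mul' (gsle _ _ _ fun p1 _ _ => h1 p1) le_rfl
      _ = q * (GS A r (fun p1 => GS A r (fun p2 => iv (E (2 ^ (J - a))
            (A.fpp (2 ^ (J - a)) p1) (A.fpp (2 ^ (J - a)) p2)) 1)) * S) := by
          rw [gsmul, mul_assoc]
      _ ≤ _ := mul_le_mul' le_rfl hmass
  have kk : ∀ p1 p2, ker A E J Θ true r p1 p2 ≤ kt A E J Θ r r p1 p2 :=
    fun p1 p2 => ker_kt hEv le_rfl p1 p2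
  have kc : ∀ p1 p2, ker A E J Θ true r p1 p2 ≤ kt A E J Θ (2 ^ (J - a)) r p1 p2 :=
    fun p1 p2 => ker_kt hEv hc0r p1 p2
  refine ⟨?_, ?_, ?_⟩
  · -- st
    intro x1 x2 om1 om2 ho1 ho2
    have : Nonempty (TM F Gd q) := by
      refine ⟨⟨fun _ => False, fun l _ => ?_⟩⟩
      simp only [iv_neg (fun h => h), Finset.sum_const_zero]
      exact zero_le
    -- for each choice
    have key : ∀ μ : List B → TM F Gd q, GS A r (fun p1 => om1 p1 * GS A r (fun p2 => om2 p2 *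
        iv (Bd p2 ∨ (μ p1).1 p2) (ker A E J Θ true r p1 p2))) * S ≤ δ0 * x1 * x2 := by
      intro μ
      have h1 := HJ (fun _ p2 => j1 A J a a1 p2) MJ2 x1 x2 om1 om2 ho1 ho2
      have h2 := HS (fun _ p2 => Bd p2 ∧ ¬ j1 A J a a1 p2) η le_rfl MB2 x1 x2 om1 om2 ho1 ho2
      have h3 := HS (fun p1 p2 => Gd p2 ∧ (μ p1).1 p2) q hqη (MT μ) x1 x2 om1 om2 ho1 ho2
      refine le_trans ?_ ((add_le_add (add_le_add h1 h2) h3).trans ?_)
      · rw [← add_mul, ← add_mul, ← GS_add2 A hc, ← GS_add2 A hc]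
        refine mul_le_mul' (gsle _ _ _ fun p1 _ _ => ?_) le_rfl
        rw [← gsmul]
        refine gsle _ _ _ fun p2 _ _ => ?_
        rw [← mul_assoc, ← mul_add, ← mul_add]
        refine mul_le_mul' le_rfl ?_
        refine le_trans (b := iv ((j1 A J a a1 p2 ∨ (Bd p2 ∧ ¬ j1 A J a a1 p2)) ∨
          (Gd p2 ∧ (μ p1).1 p2)) (ker A E J Θ true r p1 p2)) ?_ ?_
        · refine iv_mono (fun h => ?_) fun _ => le_rfl
          by_cases hbd : Bd p2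
          · by_cases hj : j1 A J a a1 p2
            · exact Or.inl (Or.inl hj)
            · exact Or.inl (Or.inr ⟨hbd, hj⟩)
          · exact Or.inr ⟨hM.gd p2 hbd, h.resolve_left hbd⟩
        · refine (iv_or _ _ _).trans (add_le_add ((iv_or _ _ _).trans (add_le_add ?_ ?_)) ?_)
          · exact iv_mono (fun h => h) fun _ => kk p1 p2
          · exact iv_mono (fun h => h) fun _ => kc p1 p2
          · exact iv_mono (fun h => h) fun _ => kc p1 p2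
      · calc 2 * ε * x1 * x2 + 2 * ε * x1 * x2 + 2 * ε * x1 * x2 = 6 * ε * x1 * x2 := by ring
          _ ≤ 16 * ε * x1 * x2 := by
              refine mul_le_mul' (mul_le_mul' (mul_le_mul' ?_ le_rfl) le_rfl) le_rfl
              norm_num
          _ ≤ δ0 * x1 * x2 := mul_le_mul' (mul_le_mul' hεδ le_rfl) le_rfl
    have hsup := hSUPC (fun (p1 : List B) (μ : TM F Gd q) => iv (A.Str r p1) (A.W p1 *
      (om1 p1 * GS A r (fun p2 => om2 p2 *
        iv (Bd p2 ∨ μ.1 p2) (ker A E J Θ true r p1 p2)))) * S) (δ0 * x1 * x2) (fun μ => by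
      refine le_trans (le_of_eq ?_) (key μ)
      rw [GS_pos A hr1]
      unfold Alph.GG
      rw [ENNReal.tsum_mul_right])
    refine le_trans ?_ hsup
    rw [GS_pos A hr1]
    unfold Alph.GG
    rw [← ENNReal.tsum_mul_right]
    refine ENNReal.tsum_le_tsum fun p1 => ?_
    by_cases hp : A.Str r p1
    · simp only [iv_pos hp]
      rw [ENNReal.mul_iSup, ENNReal.mul_iSup, ENNReal.iSup_mul]
    · simp only [iv_neg hp, zero_mul]
      exact zero_le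
  · -- eb
    intro x1 x2 om1 om2 ho1 ho2
    have h1 := HJ (fun p1 _ => j1 A J a a1 p1) MJ1 x1 x2 om1 om2 ho1 ho2
    have h2 := HS (fun p1 _ => Bd p1 ∧ ¬ j1 A J a a1 p1) η le_rfl MB1 x1 x2 om1 om2 ho1 ho2
    refine le_trans ?_ ((add_le_add h1 h2).trans ?_)
    · rw [← add_mul, ← GS_add2 A hc]
      refine mul_le_mul' (gsle _ _ _ fun p1 _ _ => gsle _ _ _ fun p2 _ _ => ?_) le_rfl
      rw [← mul_add]
      refine mul_le_mul' le_rfl ?_
      refine le_trans (b := iv (j1 A J a a1 p1 ∨ (Bd p1 ∧ ¬ j1 A J a a1 p1))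
        (ker A E J Θ true r p1 p2)) ?_ ?_
      · refine iv_mono (fun h => ?_) fun _ => le_rfl
        by_cases hj : j1 A J a a1 p1
        · exact Or.inl hj
        · exact Or.inr ⟨h, hj⟩
      · refine (iv_or _ _ _).trans (add_le_add ?_ ?_)
        · exact iv_mono (fun h => h) fun _ => kk p1 p2
        · exact iv_mono (fun h => h) fun _ => kc p1 p2
    · calc 2 * ε * x1 * x2 + 2 * ε * x1 * x2 = 4 * ε * x1 * x2 := by ring
        _ ≤ 16 * ε * x1 * x2 := by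
            refine mul_le_mul' (mul_le_mul' (mul_le_mul' ?_ le_rfl) le_rfl) le_rfl
            norm_num
        _ ≤ δ0 * x1 * x2 := mul_le_mul' (mul_le_mul' hεδ le_rfl) le_rfl
  · -- rl
    intro x1 x2 om1 om2 ho1 ho2
    have h1 := HC A E hc hren hra hEv J hK1 hK3 a 0 r haJ' hr hc0r (fun _ _ => True)
      (C * (2 * b) ^ a) (le_trans (mul_le_mul' (gsle _ _ _ fun p1 _ _ => gsle _ _ _ fun p2 _ _ =>
        iv_mono (fun h => h.1) fun _ => le_rfl) le_rfl) hmass) x1 x2 om1 om2 ho1 ho2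
    simp only [iv_pos trivial, pow_zero, mul_one] at h1
    calc _ = q * (GS A r (fun p1 => GS A r (fun p2 => om1 p1 * om2 p2 *
            kt A E J Θ (2 ^ (J - a)) r p1 p2)) * S) := mul_assoc _ _ _
      _ ≤ q * ((κ1 a 0 * (C * (2 * b) ^ a) ^ (1 / 2 : ℝ) + κ2 a) * x1 * x2) :=
          mul_le_mul' le_rfl h1
      _ = q * (κ1 a 0 * (C * (2 * b) ^ a) ^ (1 / 2 : ℝ) + κ2 a) * x1 * x2 := by ring
      _ ≤ ε * x1 * x2 := mul_le_mul' (mul_le_mul' (Hq2 q hqq) le_rfl) le_rfl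
      _ ≤ δ0 * x1 * x2 := by
          refine mul_le_mul' (mul_le_mul' (le_trans ?_ hεδ) le_rfl) le_rfl
          calc ε = 1 * ε := (one_mul ε).symm
            _ ≤ 16 * ε := mul_le_mul' (by norm_num) le_rfl

end Pool.Agent.Helper54.NSF
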